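import Pool.Agent.H96.KX.Targets2

/-!
# IDX: the index gadget is pairwise independent
-/

namespace Pool.Agent.H35.KX

open Finset Pool.Agent.H96.KX

theorem card_fix (q : ℕ) (S : Finset (Fin q)) (z : ZMod 2) :
    (univ.filter (fun u : Fin q → ZMod 2 => ∀ i ∈ S, u i = z)).card * 2 ^ S.card = 2 ^ q := by
  classical
  have h1 : (univ.filter (fun u : Fin q → ZMod 2 => ∀ i ∈ S, u i = z)) =
      Fintype.piFinset (fun i => if i ∈ S then ({z} : Finset (ZMod 2)) else univ) := by
    ext u
    simp only [mem_filter, mem_univ, true_and, Fintype.mem_piFinset]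
    constructor
    · intro h i
      by_cases hi : i ∈ S
      · simp [hi, h i hi]
      · simp [hi]
    · intro h i hi
      have := h i
      simpa [hi] using this
  have h2 : (2 : ℕ) ^ S.card = ∏ i : Fin q, (if i ∈ S then 2 else 1) := by
    rw [prod_ite_mem]
    simp
  rw [h1, Fintype.card_piFinset, h2, ← prod_mul_distrib]
  have h3 : ∀ i : Fin q, (if i ∈ S then ({z} : Finset (ZMod 2)) else univ).card *
      (if i ∈ S then 2 else 1) = 2 := by
    intro i
    by_cases hi : i ∈ S
    · simp [hi]
    · simp only [hi, if_false, mul_one, card_univ]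
      exact ZMod.card 2
  rw [prod_congr rfl (fun i _ => h3 i)]
  simp

theorem pf_IDX : S_IDX := by
  classical
  intro q
  have hU : Fintype.card (Fin q → ZMod 2) = 2 ^ q := by
    rw [Fintype.card_fun, ZMod.card, Fintype.card_fin]
  refine ⟨?_, ?_⟩
  · intro a z
    have h := card_fix q {a} z
    rw [hU, ZMod.card]
    rw [card_singleton, pow_one] at h
    rw [← h]
    congr 2
    ext u
    simp
  · intro a a' haa z
    have h := card_fix q {a, a'} z
    rw [hU, ZMod.card]
    rw [card_pair haa] at h
    rw [← h]
    congr 2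
    ext u
    simp

end Pool.Agent.H35.KX
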